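import Mathlib
import Pool.Agent.H78.Ill.CM

/-!
# Illumination numbers of cyclic polytopes and of hulls of compact parts of the moment curve

For `d ≥ 2` and a compact set `T` of at least `d + 1` real parameters let `K = conv γ(T)`, where
`γ` is the moment curve of `E^d`.  When `T = {t_1 < … < t_n}` is finite, `K` is the cyclic polytope
with the parameters `t_1, …, t_n`.

* The illumination number of `K` is the greatest length of a chain `x_1 < … < x_m` in `T` in which
  consecutive parameters are *linked*: for every set `N ⊆ T` of `d + 2` parameters in which `x`,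
  `y` are adjacent, `w_N(x) + w_N(y) ≤ (1/2) ∑_{z ∈ N} w_N(z)`, `w_N(z) = ∏_{z' ≠ z} 1 / |z - z'|`.
* The illumination numbers of the cyclic polytopes in `E^d` with `n` vertices are exactly the
  integers from `d + 1` to `min n (2 d - 1)`.
* For every interval `[a, b]` there is `δ > 0` such that the illumination number is exactly
  `d + 1` whenever `T ⊆ [a, b]` comes within `δ` of every point of `[a, b]`; in particular for the
  arc `T = [a, b]`.
* The cyclic polytopes in `E^d` with the parameters `0, 1, …, n - 1` have illumination number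
  `d + 1` for all large `n`.
-/

set_option autoImplicit false

open scoped RealInnerProductSpace

namespace Pool.Agent.Results.MP_830f5a_co.MomentCurveHulls

/-- The moment curve `γ(x) = (x, x^2, …, x^d)` in `E^d`. -/
noncomputable def momentCurve (d : ℕ) (x : ℝ) : EuclideanSpace ℝ (Fin d) :=
  WithLp.toLp 2 (fun k : Fin d => x ^ ((k : ℕ) + 1))

/-- The convex hull of the points of the moment curve with parameters in `T`. -/
noncomputable def momentHull (d : ℕ) (T : Set ℝ) : Set (EuclideanSpace ℝ (Fin d)) :=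
  convexHull ℝ (momentCurve d '' T)

/-- The cyclic polytope `conv {γ(t_1), …, γ(t_n)}`. -/
noncomputable def cyclicPolytope (d : ℕ) {n : ℕ} (t : Fin n → ℝ) :
    Set (EuclideanSpace ℝ (Fin d)) :=
  momentHull d (Set.range t)

/-- The vector `v` illuminates the point `q` of `K`: the open half-line `{q + s v : s > 0}` meets
the interior of `K`. -/
def Illuminates {d : ℕ} (K : Set (EuclideanSpace ℝ (Fin d))) (v q : EuclideanSpace ℝ (Fin d)) :
    Prop :=
  ∃ s : ℝ, 0 < s ∧ q + s • v ∈ interior K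

/-- `V` is a finite set of unit vectors such that each boundary point of `K` is illuminated by at
least one of them. -/
def IsIlluminating {d : ℕ} (K : Set (EuclideanSpace ℝ (Fin d)))
    (V : Finset (EuclideanSpace ℝ (Fin d))) : Prop :=
  (∀ v ∈ V, ‖v‖ = 1) ∧ ∀ q ∈ frontier K, ∃ v ∈ V, Illuminates K v q

/-- The illumination number of `K`. -/
noncomputable def illuminationNumber {d : ℕ} (K : Set (EuclideanSpace ℝ (Fin d))) : ℕ :=
  sInf {m | ∃ V : Finset (EuclideanSpace ℝ (Fin d)), V.card = m ∧ IsIlluminating K V}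

/-- The weight `w_N(x) = ∏_{y ∈ N, y ≠ x} 1 / |x - y|`. -/
noncomputable def weight (N : Finset ℝ) (x : ℝ) : ℝ := ∏ y ∈ N.erase x, |x - y|⁻¹

/-- The parameters `x < y` are linked in `T`: for every set `N` of `d + 2` elements of `T` which
contains `x` and `y` and no parameter strictly between them,
`w_N(x) + w_N(y) ≤ (1/2) ∑_{z ∈ N} w_N(z)`. -/
def Linked (d : ℕ) (T : Set ℝ) (x y : ℝ) : Prop :=
  ∀ N : Finset ℝ, (∀ z ∈ N, z ∈ T) → N.card = d + 2 → x ∈ N → y ∈ N →
    (∀ z ∈ N, ¬ (x < z ∧ z < y)) → weight N x + weight N y ≤ (1 / 2) * ∑ z ∈ N, weight N z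

/-- The points `γ(x)` and `γ(y)` of `conv γ(T)` are antipodal: they lie in two different parallel
supporting hyperplanes of `conv γ(T)`. -/
def Antipodal (d : ℕ) (T : Set ℝ) (x y : ℝ) : Prop :=
  ∃ f : EuclideanSpace ℝ (Fin d), ⟪f, momentCurve d x⟫ < ⟪f, momentCurve d y⟫ ∧
    ∀ z ∈ T, ⟪f, momentCurve d x⟫ ≤ ⟪f, momentCurve d z⟫ ∧
      ⟪f, momentCurve d z⟫ ≤ ⟪f, momentCurve d y⟫

/-- **The general formula.** -/
theorem formula {d : ℕ} {T : Set ℝ} (hd : 2 ≤ d) (hT : IsCompact T)
    (hc : ∃ S : Finset ℝ, (∀ x ∈ S, x ∈ T) ∧ d + 1 ≤ S.card) :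
    IsLeast {m | ∃ V : Finset (EuclideanSpace ℝ (Fin d)), V.card = m ∧
        IsIlluminating (momentHull d T) V} (illuminationNumber (momentHull d T)) ∧
    IsGreatest {m | ∃ l : List ℝ, l.length = m ∧ (∀ x ∈ l, x ∈ T) ∧
        l.IsChain (fun x y => x < y ∧ Linked d T x y)}
      (illuminationNumber (momentHull d T)) ∧
    IsGreatest {m | ∃ S : Finset ℝ, (∀ x ∈ S, x ∈ T) ∧ S.card = m ∧
        ∀ x ∈ S, ∀ y ∈ S, x < y → Antipodal d T x y}
      (illuminationNumber (momentHull d T)) ∧
    (∀ x ∈ T, ∀ y ∈ T, x < y → (Linked d T x y ↔ Antipodal d T x y)) ∧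
    (∀ x' ∈ T, ∀ x ∈ T, ∀ y ∈ T, ∀ y' ∈ T, x' ≤ x → x < y → y ≤ y' → Linked d T x y →
      Linked d T x' y') ∧
    d + 1 ≤ illuminationNumber (momentHull d T) ∧
    illuminationNumber (momentHull d T) ≤ 2 * d - 1 := by
  obtain ⟨m, h1, h2⟩ := Pool.Agent.H78.Ill.mainR hd hT hc
  have hm : illuminationNumber (momentHull d T) = m := by
    have h3 : IsLeast {m | ∃ V : Finset (EuclideanSpace ℝ (Fin d)), V.card = m ∧
        IsIlluminating (momentHull d T) V} m := h1
    exact h3.csInf_eq
  rw [hm]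
  exact ⟨h1, h2⟩

/-- The hull of at least `d + 1` points is a convex body. -/
theorem body {d : ℕ} {T : Set ℝ} (hT : IsCompact T)
    (hc : ∃ S : Finset ℝ, (∀ x ∈ S, x ∈ T) ∧ d + 1 ≤ S.card) :
    IsCompact (momentHull d T) ∧ (interior (momentHull d T)).Nonempty := by
  classical
  obtain ⟨S, hS, hn⟩ := hc
  have e : (S.subtype (· ∈ T)).map (Function.Embedding.subtype _) = S :=
    Finset.subtype_map_of_mem hS
  have hn' : d + 1 ≤ (S.subtype (· ∈ T)).card := by
    rw [← Finset.card_map (Function.Embedding.subtype _), e]; exact hn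
  constructor
  · refine Pool.Agent.H78.Ill.hull_compact (hT.image ?_)
    unfold momentCurve
    exact (PiLp.continuous_toLp 2 _).comp (continuous_pi fun k => continuous_id.pow _)
  · have h := Pool.Agent.H78.Ill.interior_nonempty (Pool.Agent.H78.Ill.vl_mono T) _ hn'
    rw [Pool.Agent.H78.Ill.cyc_eq] at h
    exact h

theorem values {d n : ℕ} (hd : 2 ≤ d) (hn : d + 1 ≤ n) :
    {m | ∃ t : Fin n → ℝ, StrictMono t ∧ illuminationNumber (cyclicPolytope d t) = m} =
      Set.Icc (d + 1) (min n (2 * d - 1)) := by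
  classical
  ext m
  constructor
  · rintro ⟨t, ht, rfl⟩
    have hc : ∃ S : Finset ℝ, (∀ x ∈ S, x ∈ Set.range t) ∧ d + 1 ≤ S.card := by
      refine ⟨Finset.univ.image t, by simp, ?_⟩
      rw [Finset.card_image_of_injective _ ht.injective, Finset.card_univ, Fintype.card_fin]
      exact hn
    obtain ⟨h1, h2, h3, h4, h5, h6, h7⟩ := formula hd (Set.finite_range t).isCompact hc
    refine ⟨h6, le_min ?_ h7⟩
    obtain ⟨S, hS, hS2, _⟩ := h3.1
    have h8 : S ⊆ Finset.univ.image t := by
      intro x hx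
      have := hS x hx
      simpa using this
    have h9 := Finset.card_le_card h8
    rw [Finset.card_image_of_injective _ ht.injective, Finset.card_univ, Fintype.card_fin,
      hS2] at h9
    exact h9
  · rintro ⟨h1, h2⟩
    obtain ⟨T, hT, hT2⟩ := Pool.Agent.H78.Ill.exists_value hd h1 (h2.trans (min_le_right _ _))
      (h2.trans (min_le_left _ _))
    have hrange : Set.range (T.orderEmbOfFin hT) = (T : Set ℝ) := Finset.range_orderEmbOfFin T hT
    refine ⟨T.orderEmbOfFin hT, (T.orderEmbOfFin hT).strictMono, ?_⟩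
    have hc : ∃ S : Finset ℝ, (∀ x ∈ S, x ∈ (T : Set ℝ)) ∧ d + 1 ≤ S.card :=
      ⟨T, fun x hx => hx, by omega⟩
    obtain ⟨_, _, h3, _⟩ := formula hd T.finite_toSet.isCompact hc
    unfold cyclicPolytope
    rw [hrange]
    exact h3.unique hT2

theorem fine {d : ℕ} {a b : ℝ} (hd : 2 ≤ d) (hab : a < b) : ∃ δ : ℝ, 0 < δ ∧ ∀ T : Set ℝ,
    IsCompact T → T ⊆ Set.Icc a b → (∃ S : Finset ℝ, (∀ x ∈ S, x ∈ T) ∧ d + 1 ≤ S.card) →
    (∀ z ∈ Set.Icc a b, ∃ w ∈ T, |z - w| < δ) → illuminationNumber (momentHull d T) = d + 1 := by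
  obtain ⟨δ, hδ, h⟩ := Pool.Agent.H78.Ill.fine (d := d) hd hab
  refine ⟨δ, hδ, fun T hT hTab hc hfine => ?_⟩
  obtain ⟨_, _, h3, _, _, h6, _⟩ := formula hd hT hc
  obtain ⟨S, hS, hS2, hS3⟩ := h3.1
  have := h T hTab hc hfine S hS hS3
  omega

theorem equally_spaced {d : ℕ} (hd : 2 ≤ d) : ∃ n₀ : ℕ, ∀ n : ℕ, n₀ ≤ n →
    illuminationNumber (cyclicPolytope d (fun i : Fin n => ((i : ℕ) : ℝ))) = d + 1 := by
  classical
  obtain ⟨n₀, h⟩ := Pool.Agent.H78.Ill.equally_spaced (d := d) hd
  refine ⟨n₀ + d + 1, fun n hn => ?_⟩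
  have hmono : StrictMono (fun i : Fin n => ((i : ℕ) : ℝ)) := fun i j hij =>
    Nat.cast_lt.mpr hij
  have hc : ∃ S : Finset ℝ, (∀ x ∈ S, x ∈ Set.range (fun i : Fin n => ((i : ℕ) : ℝ))) ∧
      d + 1 ≤ S.card := by
    refine ⟨Finset.univ.image (fun i : Fin n => ((i : ℕ) : ℝ)), by simp, ?_⟩
    rw [Finset.card_image_of_injective _ hmono.injective, Finset.card_univ, Fintype.card_fin]
    omega
  obtain ⟨_, _, h3, _, _, h6, _⟩ := formula hd
    (Set.finite_range (fun i : Fin n => ((i : ℕ) : ℝ))).isCompact hc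
  obtain ⟨S, hS, hS2, hS3⟩ := h3.1
  have := h n (by omega) S hS hS3
  unfold cyclicPolytope
  omega

/-- **Illumination numbers of cyclic polytopes, and of hulls of compact parts of the moment
curve.** -/
theorem result :
    -- (A) the formula: `T` any compact set of at least `d + 1` parameters (the cyclic polytopes
    -- are the case in which `T` is finite)
    (∀ (d : ℕ) (T : Set ℝ), 2 ≤ d → IsCompact T →
      (∃ S : Finset ℝ, (∀ x ∈ S, x ∈ T) ∧ d + 1 ≤ S.card) →
      -- the hull is a convex body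
      (IsCompact (momentHull d T) ∧ (interior (momentHull d T)).Nonempty) ∧
      -- the illumination number is attained
      IsLeast {m | ∃ V : Finset (EuclideanSpace ℝ (Fin d)), V.card = m ∧
          IsIlluminating (momentHull d T) V} (illuminationNumber (momentHull d T)) ∧
      -- the formula in terms of the parameters
      IsGreatest {m | ∃ l : List ℝ, l.length = m ∧ (∀ x ∈ l, x ∈ T) ∧
          l.IsChain (fun x y => x < y ∧ Linked d T x y)}
        (illuminationNumber (momentHull d T)) ∧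
      -- the formula in terms of antipodal points
      IsGreatest {m | ∃ S : Finset ℝ, (∀ x ∈ S, x ∈ T) ∧ S.card = m ∧
          ∀ x ∈ S, ∀ y ∈ S, x < y → Antipodal d T x y}
        (illuminationNumber (momentHull d T)) ∧
      -- linked means antipodal, and linkedness is monotone
      (∀ x ∈ T, ∀ y ∈ T, x < y → (Linked d T x y ↔ Antipodal d T x y)) ∧
      (∀ x' ∈ T, ∀ x ∈ T, ∀ y ∈ T, ∀ y' ∈ T, x' ≤ x → x < y → y ≤ y' → Linked d T x y →
        Linked d T x' y') ∧
      -- bounds
      d + 1 ≤ illuminationNumber (momentHull d T) ∧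
      illuminationNumber (momentHull d T) ≤ 2 * d - 1) ∧
    -- (B) the illumination numbers of the cyclic polytopes with `n` vertices in `E^d`
    (∀ d n : ℕ, 2 ≤ d → d + 1 ≤ n →
      {m | ∃ t : Fin n → ℝ, StrictMono t ∧ illuminationNumber (cyclicPolytope d t) = m} =
        Set.Icc (d + 1) (min n (2 * d - 1))) ∧
    -- (C) fine parameter sets in an interval, for instance the whole interval
    (∀ (d : ℕ) (a b : ℝ), 2 ≤ d → a < b → ∃ δ : ℝ, 0 < δ ∧ ∀ T : Set ℝ, IsCompact T →
      T ⊆ Set.Icc a b → (∃ S : Finset ℝ, (∀ x ∈ S, x ∈ T) ∧ d + 1 ≤ S.card) →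
      (∀ z ∈ Set.Icc a b, ∃ w ∈ T, |z - w| < δ) →
      illuminationNumber (momentHull d T) = d + 1) ∧
    -- (D) the parameters `0, 1, …, n - 1`
    (∀ d : ℕ, 2 ≤ d → ∃ n₀ : ℕ, ∀ n : ℕ, n₀ ≤ n →
      illuminationNumber (cyclicPolytope d (fun i : Fin n => ((i : ℕ) : ℝ))) = d + 1) := by
  refine ⟨fun d T hd hT hc => ⟨body hT hc, formula hd hT hc⟩, fun d n hd hn => values hd hn,
    fun d a b hd hab => fine hd hab, fun d hd => equally_spaced hd⟩

end Pool.Agent.Results.MP_830f5a_co.MomentCurveHulls
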